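import Pool.Agent.H76.ND.Targets

/-!
# Part D of MP_57ddd5_pr: monotonicity of the allowances in the index of goodness
-/

namespace Pool.Agent.H20.ND

open Pool.Agent.H99.NS Pool.Agent.H22.LPP Pool.Agent.H95.INS Pool.Agent.H76.ND

theorem ds_of_le {k i : ℕ} (h : k ≤ i) : ds k i = i - k := by
  unfold ds; rw [max_eq_right h, min_eq_left h]

theorem ds_of_ge {k i : ℕ} (h : i ≤ k) : ds k i = k - i := by
  unfold ds; rw [max_eq_left h, min_eq_right h]

theorem two_t_pow (n : ℕ) (hn : 1 ≤ n) : 2 * (101 / 100 : ℝ) ^ n ≤ 16 ^ n := by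
  have h2 : (2 : ℝ) ≤ 2 ^ n := by
    calc (2 : ℝ) = 2 ^ 1 := by norm_num
      _ ≤ 2 ^ n := pow_le_pow_right₀ (by norm_num) hn
  calc 2 * (101 / 100 : ℝ) ^ n ≤ 2 ^ n * (101 / 100 : ℝ) ^ n := by gcongr
    _ = (2 * (101 / 100)) ^ n := by rw [mul_pow]
    _ ≤ 16 ^ n := by gcongr; norm_num

theorem pf_ALM : T_ALM := by
  intro K0 D j k i hK hD hjk
  refine ⟨fun hki => ?_, fun hik hk => ?_⟩
  · unfold al
    rw [ds_of_le hki, ds_of_le (show j ≤ i by omega), max_eq_right hki,
      max_eq_right (show j ≤ i by omega)]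
    have : (101 / 100 : ℝ) ^ (i - k) ≤ (101 / 100 : ℝ) ^ (i - j) :=
      pow_le_pow_right₀ (by norm_num) (by omega)
    gcongr
  · have h16k : (0 : ℝ) < 16 ^ k := by positivity
    have hk1 : 1 ≤ D / 16 ^ k := by rw [le_div_iff₀ h16k]; linarith
    have hU : al K0 k i D ≤ K0 * (101 / 100) ^ (k - i) * 4 ^ i * (2 * (D / 16 ^ k)) := by
      unfold al
      rw [ds_of_ge hik.le, max_eq_left hik.le]
      have : 1 + D / 16 ^ k ≤ 2 * (D / 16 ^ k) := by linarith
      gcongr
    refine hU.trans ?_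
    rcases le_or_gt i j with hij | hij
    · -- i ≤ j
      have hL : K0 * (101 / 100) ^ (j - i) * 4 ^ i * (D / 16 ^ j) ≤ al K0 j i D := by
        unfold al
        rw [ds_of_ge hij, max_eq_left hij]
        have : D / 16 ^ j ≤ 1 + D / 16 ^ j := by linarith
        gcongr
      refine le_trans ?_ hL
      have e1 : (101 / 100 : ℝ) ^ (k - i) = (101 / 100) ^ (j - i) * (101 / 100) ^ (k - j) := by
        rw [← pow_add]; congr 1; omega
      have e2 : (16 : ℝ) ^ k = 16 ^ j * 16 ^ (k - j) := by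
        rw [← pow_add]; congr 1; omega
      have h := two_t_pow (k - j) (by omega)
      have h16 : (0 : ℝ) < 16 ^ (k - j) := by positivity
      have h16j : (0 : ℝ) < 16 ^ j := by positivity
      have key : (101 / 100 : ℝ) ^ (k - j) * (2 * (D / 16 ^ k)) ≤ D / 16 ^ j := by
        rw [e2]
        have : (101 / 100 : ℝ) ^ (k - j) * (2 * (D / (16 ^ j * 16 ^ (k - j)))) =
            (2 * (101 / 100 : ℝ) ^ (k - j) / 16 ^ (k - j)) * (D / 16 ^ j) := by
          field_simp
        rw [this]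
        have h1 : 2 * (101 / 100 : ℝ) ^ (k - j) / 16 ^ (k - j) ≤ 1 := by
          rw [div_le_one h16]; exact h
        have h2 : 0 ≤ D / 16 ^ j := by positivity
        nlinarith
      calc K0 * (101 / 100) ^ (k - i) * 4 ^ i * (2 * (D / 16 ^ k)) =
          K0 * (101 / 100) ^ (j - i) * 4 ^ i * ((101 / 100 : ℝ) ^ (k - j) * (2 * (D / 16 ^ k))) := by
            rw [e1]; ring
        _ ≤ K0 * (101 / 100) ^ (j - i) * 4 ^ i * (D / 16 ^ j) := by gcongr
    · -- j < i
      have hL : K0 * (101 / 100) ^ (i - j) * 4 ^ i * (D / 16 ^ i) ≤ al K0 j i D := by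
        unfold al
        rw [ds_of_le hij.le, max_eq_right hij.le]
        have : D / 16 ^ i ≤ 1 + D / 16 ^ i := by linarith
        gcongr
      refine le_trans ?_ hL
      have e2 : (16 : ℝ) ^ k = 16 ^ i * 16 ^ (k - i) := by
        rw [← pow_add]; congr 1; omega
      have h := two_t_pow (k - i) (by omega)
      have h16 : (0 : ℝ) < 16 ^ (k - i) := by positivity
      have h16j : (0 : ℝ) < 16 ^ i := by positivity
      have hone : (1 : ℝ) ≤ (101 / 100) ^ (i - j) := one_le_pow₀ (by norm_num)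
      have key : (101 / 100 : ℝ) ^ (k - i) * (2 * (D / 16 ^ k)) ≤ D / 16 ^ i := by
        rw [e2]
        have : (101 / 100 : ℝ) ^ (k - i) * (2 * (D / (16 ^ i * 16 ^ (k - i)))) =
            (2 * (101 / 100 : ℝ) ^ (k - i) / 16 ^ (k - i)) * (D / 16 ^ i) := by
          field_simp
        rw [this]
        have h1 : 2 * (101 / 100 : ℝ) ^ (k - i) / 16 ^ (k - i) ≤ 1 := by
          rw [div_le_one h16]; exact h
        have h2 : 0 ≤ D / 16 ^ i := by positivity
        nlinarith
      calc K0 * (101 / 100) ^ (k - i) * 4 ^ i * (2 * (D / 16 ^ k)) =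
          K0 * 1 * 4 ^ i * ((101 / 100 : ℝ) ^ (k - i) * (2 * (D / 16 ^ k))) := by ring
        _ ≤ K0 * (101 / 100) ^ (i - j) * 4 ^ i * (D / 16 ^ i) := by gcongr

end Pool.Agent.H20.ND
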