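import Pool.Agent.H20.ND.ALM

/-!
# Part D of MP_57ddd5_pr: allowances with a larger threshold at a smaller index
-/

namespace Pool.Agent.H20.ND

open Pool.Agent.H99.NS Pool.Agent.H22.LPP Pool.Agent.H95.INS Pool.Agent.H76.ND

theorem pf_ALW : T_ALW := by
  intro K0 K1 D j k i hK hD hjk hK1
  have hbase : (1 : ℝ) ≤ 101 / 100 := by norm_num
  have hone : (1 : ℝ) ≤ (101 / 100) ^ (k - j) := one_le_pow₀ hbase
  have hK01 : K0 ≤ K1 := by nlinarith
  have hK1' : 0 ≤ K1 := hK.trans hK01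
  rcases le_or_gt k i with hki | hki
  · unfold al
    rw [ds_of_le hki, ds_of_le (show j ≤ i by omega), max_eq_right hki,
      max_eq_right (show j ≤ i by omega)]
    have : (101 / 100 : ℝ) ^ (i - k) ≤ (101 / 100 : ℝ) ^ (i - j) :=
      pow_le_pow_right₀ hbase (by omega)
    gcongr
  · have h16 : (16 : ℝ) ^ i ≤ 16 ^ k := pow_le_pow_right₀ (by norm_num) hki.le
    have h16' : (16 : ℝ) ^ j ≤ 16 ^ k := pow_le_pow_right₀ (by norm_num) hjk
    rcases le_or_gt j i with hji | hji
    · unfold al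
      rw [ds_of_ge hki.le, ds_of_le hji, max_eq_left hki.le, max_eq_right hji]
      have h1 : K0 * (101 / 100 : ℝ) ^ (k - i) ≤ K1 := by
        have : (101 / 100 : ℝ) ^ (k - i) ≤ (101 / 100 : ℝ) ^ (k - j) :=
          pow_le_pow_right₀ hbase (by omega)
        refine le_trans ?_ hK1
        gcongr
      have h2 : K1 ≤ K1 * (101 / 100 : ℝ) ^ (i - j) := by
        have : (1 : ℝ) ≤ (101 / 100 : ℝ) ^ (i - j) := one_le_pow₀ hbase
        nlinarith
      have h3 : K0 * (101 / 100 : ℝ) ^ (k - i) ≤ K1 * (101 / 100 : ℝ) ^ (i - j) := h1.trans h2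
      have h4 : D / 16 ^ k ≤ D / 16 ^ i := by gcongr
      gcongr
    · unfold al
      rw [ds_of_ge hki.le, ds_of_ge hji.le, max_eq_left hki.le, max_eq_left hji.le]
      have h1 : K0 * (101 / 100 : ℝ) ^ (k - i) ≤ K1 * (101 / 100) ^ (j - i) := by
        have e1 : (101 / 100 : ℝ) ^ (k - i) = (101 / 100) ^ (k - j) * (101 / 100) ^ (j - i) := by
          rw [← pow_add]; congr 1; omega
        rw [e1, ← mul_assoc]
        gcongr
      have h4 : D / 16 ^ k ≤ D / 16 ^ j := by gcongr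
      gcongr

end Pool.Agent.H20.ND
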