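import Pool.Agent.H76.ND.Targets2

/-!
# Part D of MP_57ddd5_pr: fourth moment of the effect of a change near an end point
-/

open MeasureTheory ProbabilityTheory
open scoped ENNReal

namespace Pool.Agent.H20.ND

open Pool.Agent.H99.NS Pool.Agent.H22.LPP Pool.Agent.H95.INS Pool.Agent.H76.ND

/-- Powers against stretched exponentials. -/
theorem pow_mul_exp_le (c s : ℝ) (m : ℕ) (hc : 0 < c) (hs : 0 < s) :
    ∃ K : ℝ, 0 < K ∧ ∀ x : ℝ, 0 ≤ x → x ^ m * Real.exp (-(c * x ^ s)) ≤ K := by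
  set n : ℕ := ⌈(m : ℝ) / s⌉₊ with hn
  refine ⟨1 + n.factorial / c ^ n, by positivity, fun x hx => ?_⟩
  have hfac : 0 ≤ (n.factorial : ℝ) / c ^ n := by positivity
  rcases le_or_gt x 1 with h1 | h1
  · have e1 : x ^ m ≤ 1 := pow_le_one₀ hx h1
    have e2 : Real.exp (-(c * x ^ s)) ≤ 1 := by
      rw [Real.exp_le_one_iff]
      have : 0 ≤ c * x ^ s := by positivity
      linarith
    have e3 : x ^ m * Real.exp (-(c * x ^ s)) ≤ 1 :=
      mul_le_one₀ e1 (Real.exp_pos _).le e2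
    linarith
  · have hx0 : 0 < x := by linarith
    have hy : 1 ≤ x ^ s := Real.one_le_rpow h1.le hs.le
    have e1 : x ^ m ≤ (x ^ s) ^ n := by
      rw [← Real.rpow_natCast x m, ← Real.rpow_natCast (x ^ s) n, ← Real.rpow_mul hx]
      apply Real.rpow_le_rpow_of_exponent_le h1.le
      have : (m : ℝ) / s ≤ n := Nat.le_ceil _
      rw [div_le_iff₀ hs] at this
      linarith
    have e2 : (c * x ^ s) ^ n / n.factorial ≤ Real.exp (c * x ^ s) :=
      Real.pow_div_factorial_le_exp _ (by positivity) n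
    have e3 : (x ^ s) ^ n ≤ n.factorial / c ^ n * Real.exp (c * x ^ s) := by
      rw [div_le_iff₀ (by positivity), mul_pow] at e2
      rw [div_mul_eq_mul_div, le_div_iff₀ (by positivity)]
      linarith
    calc x ^ m * Real.exp (-(c * x ^ s)) ≤ (n.factorial / c ^ n * Real.exp (c * x ^ s)) *
          Real.exp (-(c * x ^ s)) := by
          refine mul_le_mul_of_nonneg_right (e1.trans e3) (Real.exp_pos _).le
      _ = n.factorial / c ^ n := by
          rw [mul_assoc, ← Real.exp_add, add_neg_cancel, Real.exp_zero, mul_one]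
      _ ≤ 1 + n.factorial / c ^ n := by linarith

theorem sum_one (c s : ℝ) (hc : 0 < c) (hs : 0 < s) :
    ∃ K : ℝ, 0 < K ∧ ∀ J : ℕ, ∑ j ∈ Finset.range J,
      ((j : ℝ) + 1) ^ 4 * Real.exp (-(c * (j : ℝ) ^ s)) ≤ K := by
  obtain ⟨K, hK, h⟩ := pow_mul_exp_le c s 6 hc hs
  have hsum : Summable (fun j : ℕ => 1 / ((j : ℝ) + 1) ^ 2) := by
    have := (summable_nat_add_iff 1).2 (Real.summable_one_div_nat_pow.2 (one_lt_two))
    push_cast at this
    exact this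
  have hnn : 0 ≤ ∑' j : ℕ, 1 / ((j : ℝ) + 1) ^ 2 := tsum_nonneg fun j => by positivity
  refine ⟨(1 + 64 * K) * ((∑' j : ℕ, 1 / ((j : ℝ) + 1) ^ 2) + 1), by positivity, fun J => ?_⟩
  have hterm : ∀ j ∈ Finset.range J, ((j : ℝ) + 1) ^ 4 * Real.exp (-(c * (j : ℝ) ^ s)) ≤
      (1 + 64 * K) * (1 / ((j : ℝ) + 1) ^ 2) := by
    intro j _
    have hj0 : (0 : ℝ) ≤ j := Nat.cast_nonneg j
    rw [mul_one_div, le_div_iff₀ (by positivity)]
    have e1 : ((j : ℝ) + 1) ^ 4 * Real.exp (-(c * (j : ℝ) ^ s)) * ((j : ℝ) + 1) ^ 2 =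
        ((j : ℝ) + 1) ^ 6 * Real.exp (-(c * (j : ℝ) ^ s)) := by ring
    rw [e1]
    rcases Nat.eq_zero_or_pos j with rfl | hj
    · have : Real.exp (-(c * ((0 : ℕ) : ℝ) ^ s)) ≤ 1 := by
        rw [Real.exp_le_one_iff]
        have : 0 ≤ c * ((0 : ℕ) : ℝ) ^ s := by positivity
        linarith
      simp only [Nat.cast_zero, zero_add, one_pow, one_mul] at this ⊢
      linarith
    · have hj1 : (1 : ℝ) ≤ j := by exact_mod_cast hj
      have e2 : ((j : ℝ) + 1) ^ 6 ≤ 64 * (j : ℝ) ^ 6 := by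
        calc ((j : ℝ) + 1) ^ 6 ≤ (2 * j) ^ 6 := by gcongr; linarith
          _ = 64 * (j : ℝ) ^ 6 := by ring
      calc ((j : ℝ) + 1) ^ 6 * Real.exp (-(c * (j : ℝ) ^ s)) ≤
          64 * (j : ℝ) ^ 6 * Real.exp (-(c * (j : ℝ) ^ s)) := by gcongr
        _ = 64 * ((j : ℝ) ^ 6 * Real.exp (-(c * (j : ℝ) ^ s))) := by ring
        _ ≤ 64 * K := by have := h j hj0; linarith
        _ ≤ 1 + 64 * K := by linarith
  refine (Finset.sum_le_sum hterm).trans ?_
  rw [← Finset.mul_sum]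
  have := hsum.sum_le_tsum (Finset.range J) (fun j _ => by positivity)
  gcongr
  linarith

theorem sum_two (c : ℝ) (hc : 0 < c) :
    ∃ K : ℝ, 0 < K ∧ ∀ N : ℕ, 1 ≤ N → ∑ j ∈ Finset.range (N ^ 4 + 1),
      ((j : ℝ) + 1) ^ 4 * Real.exp (-(N : ℝ) ^ c) ≤ K := by
  obtain ⟨K, hK, h⟩ := pow_mul_exp_le 1 c 20 one_pos hc
  refine ⟨243 * K, by positivity, fun N hN => ?_⟩
  have hN1 : (1 : ℝ) ≤ N := by exact_mod_cast hN
  have hN4 : (1 : ℝ) ≤ (N : ℝ) ^ 4 := one_le_pow₀ hN1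
  have hterm : ∀ j ∈ Finset.range (N ^ 4 + 1), ((j : ℝ) + 1) ^ 4 * Real.exp (-(N : ℝ) ^ c) ≤
      (3 * (N : ℝ) ^ 4) ^ 4 * Real.exp (-(N : ℝ) ^ c) := by
    intro j hj
    have hj' : j ≤ N ^ 4 := by rw [Finset.mem_range] at hj; omega
    have : (j : ℝ) ≤ (N : ℝ) ^ 4 := by exact_mod_cast hj'
    gcongr
    linarith
  refine (Finset.sum_le_sum hterm).trans ?_
  rw [Finset.sum_const, Finset.card_range, nsmul_eq_mul]
  push_cast
  have hK' := h N (by positivity)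
  rw [one_mul] at hK'
  have hexp : 0 < Real.exp (-(N : ℝ) ^ c) := Real.exp_pos _
  calc ((N : ℝ) ^ 4 + 1) * ((3 * (N : ℝ) ^ 4) ^ 4 * Real.exp (-(N : ℝ) ^ c))
      ≤ (3 * (N : ℝ) ^ 4) * ((3 * (N : ℝ) ^ 4) ^ 4 * Real.exp (-(N : ℝ) ^ c)) := by
        gcongr; linarith
    _ = 243 * ((N : ℝ) ^ 20 * Real.exp (-(N : ℝ) ^ c)) := by ring
    _ ≤ 243 * K := by gcongr

/-- Pointwise bound of the fourth power. -/
theorem pointwise (z B : ℝ) (N : ℕ) (hz : 0 ≤ z) (hB : 1 ≤ B) (hN : 1 ≤ N) :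
    z ^ 4 ≤ ∑ j ∈ Finset.range (N ^ 4 + 1), (if (j : ℝ) * B ≤ z then (((j : ℝ) + 1) * B) ^ 4 else 0) +
      z ^ 8 / (N : ℝ) ^ 16 := by
  have hN1 : (1 : ℝ) ≤ N := by exact_mod_cast hN
  have hnn : ∀ j ∈ Finset.range (N ^ 4 + 1),
      0 ≤ (if (j : ℝ) * B ≤ z then (((j : ℝ) + 1) * B) ^ 4 else 0) := by
    intro j _; split_ifs <;> positivity
  rcases le_or_gt z ((N : ℝ) ^ 4) with h | h
  · set j : ℕ := ⌊z / B⌋₊ with hj
    have hzB : 0 ≤ z / B := by positivity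
    have h1 : (j : ℝ) ≤ z / B := Nat.floor_le hzB
    have h2 : z / B < j + 1 := Nat.lt_floor_add_one _
    have hB0 : 0 < B := by linarith
    rw [le_div_iff₀ hB0] at h1
    rw [div_lt_iff₀ hB0] at h2
    have hjN : j < N ^ 4 + 1 := by
      have : (j : ℝ) ≤ (N : ℝ) ^ 4 := by
        have : (j : ℝ) ≤ (j : ℝ) * B := by
          have : (0 : ℝ) ≤ j := Nat.cast_nonneg j
          nlinarith
        linarith
      have : j ≤ N ^ 4 := by exact_mod_cast this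
      omega
    have h3 := Finset.single_le_sum hnn (Finset.mem_range.2 hjN)
    rw [if_pos h1] at h3
    have h4 : z ^ 4 ≤ (((j : ℝ) + 1) * B) ^ 4 := by gcongr
    have h5 : 0 ≤ z ^ 8 / (N : ℝ) ^ 16 := by positivity
    linarith
  · have h1 := Finset.sum_nonneg hnn
    have h2 : z ^ 4 ≤ z ^ 8 / (N : ℝ) ^ 16 := by
      rw [le_div_iff₀ (by positivity)]
      have h3 : ((N : ℝ) ^ 4) ^ 4 ≤ z ^ 4 := by gcongr
      have h4 : ((N : ℝ) ^ 4) ^ 4 = (N : ℝ) ^ 16 := by ring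
      have h5 : z ^ 8 = z ^ 4 * z ^ 4 := by ring
      rw [h4] at h3
      rw [h5]
      gcongr
    linarith

theorem pf_MOM (h_DFT : T_DFT) (h_CRM : T_CRM) : T_MOM := by
  intro q c0 hq0 hq1 hc0 hc01 hLT hN
  obtain ⟨C, c, s, N0, hC, hc, hs, hD⟩ := h_DFT q c0 hq0 hq1 hc0 hc01 hLT hN
  obtain ⟨C2, hC2, hM⟩ := h_CRM q hq0 hq1
  obtain ⟨K1, hK1, hS1⟩ := sum_one c s hc hs
  obtain ⟨K2, hK2, hS2⟩ := sum_two c hc
  refine ⟨C * K1 + C * K2 + 256 * C2, max 1 N0, by positivity, ?_⟩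
  intro N o e b Q hNN hEP hb1 hb2 hQ Ω _ μ _ X X' hX hX' hXX
  have hN1 : 1 ≤ N := (le_max_left _ _).trans hNN
  have hN0 : N0 ≤ N := (le_max_right _ _).trans hNN
  have hN1' : (1 : ℝ) ≤ N := by exact_mod_cast hN1
  have hB : (1 : ℝ) ≤ 4 ^ b := one_le_pow₀ (by norm_num)
  have hB4 : ((4 : ℝ) ^ b) ^ 4 = 256 ^ b := by
    rw [← pow_mul, mul_comm, pow_mul]; norm_num
  set Z : Ω → ℝ := fun p => |T (X p) o e - T (X' p) o e| with hZ
  have hmX : Measurable fun p => T (X p) o e := (measurable_T o e).comp hX.measurable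
  have hmX' : Measurable fun p => T (X' p) o e := (measurable_T o e).comp hX'.measurable
  have hmZ : Measurable Z := (hmX.sub hmX').abs
  have hZ0 : ∀ p, 0 ≤ Z p := fun p => abs_nonneg _
  have hA : ∀ j : ℕ, MeasurableSet {p | (j : ℝ) * 4 ^ b ≤ Z p} := fun j =>
    measurableSet_le measurable_const hmZ
  -- pointwise bound in `ENNReal`
  have hpt : ∀ p, ENNReal.ofReal (Z p ^ 4) ≤
      ∑ j ∈ Finset.range (N ^ 4 + 1), ENNReal.ofReal ((((j : ℝ) + 1) * 4 ^ b) ^ 4) *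
        ({p | (j : ℝ) * 4 ^ b ≤ Z p}.indicator (fun _ => (1 : ℝ≥0∞)) p) +
      (ENNReal.ofReal (128 / (N : ℝ) ^ 16) * ENNReal.ofReal (T (X p) o e ^ 8) +
        ENNReal.ofReal (128 / (N : ℝ) ^ 16) * ENNReal.ofReal (T (X' p) o e ^ 8)) := by
    intro p
    refine (ENNReal.ofReal_le_ofReal (pointwise (Z p) (4 ^ b) N (hZ0 p) hB hN1)).trans ?_
    rw [ENNReal.ofReal_add (Finset.sum_nonneg fun j _ => by split_ifs <;> positivity)
      (by have := hZ0 p; positivity)]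
    refine add_le_add ?_ ?_
    · rw [ENNReal.ofReal_sum_of_nonneg (fun j _ => by split_ifs <;> positivity)]
      refine Finset.sum_le_sum fun j _ => ?_
      by_cases h : (j : ℝ) * 4 ^ b ≤ Z p
      · rw [if_pos h, Set.indicator_of_mem (by exact h), mul_one]
      · rw [if_neg h, ENNReal.ofReal_zero]; exact bot_le
    · rw [← ENNReal.ofReal_mul (by positivity), ← ENNReal.ofReal_mul (by positivity),
        ← ENNReal.ofReal_add (by positivity) (by positivity)]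
      apply ENNReal.ofReal_le_ofReal
      have h1 : Z p ≤ |T (X p) o e| + |T (X' p) o e| := abs_sub _ _
      have h2 : Z p ^ 8 ≤ 2 ^ 7 * (|T (X p) o e| ^ 8 + |T (X' p) o e| ^ 8) :=
        (pow_le_pow_left₀ (hZ0 p) h1 8).trans
          (add_pow_le (abs_nonneg _) (abs_nonneg _) 8)
      have e8 : ∀ x : ℝ, |x| ^ 8 = x ^ 8 := fun x => by
        rw [show (8 : ℕ) = 2 * 4 by norm_num, pow_mul, pow_mul, sq_abs]
      rw [e8 (T (X p) o e), e8 (T (X' p) o e)] at h2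
      have hN16 : (0 : ℝ) < (N : ℝ) ^ 16 := by positivity
      rw [div_le_iff₀ hN16]
      have : (128 / (N : ℝ) ^ 16 * T (X p) o e ^ 8 + 128 / (N : ℝ) ^ 16 * T (X' p) o e ^ 8) *
          (N : ℝ) ^ 16 = 2 ^ 7 * (T (X p) o e ^ 8 + T (X' p) o e ^ 8) := by
        field_simp; ring
      rw [this]; exact h2
  have hTm : Measurable fun ω : Env => ENNReal.ofReal (T ω o e ^ 8) :=
    ((measurable_T o e).pow_const 8).ennreal_ofReal
  have hI1 : ∫⁻ p, ENNReal.ofReal (T (X p) o e ^ 8) ∂μ ≤ ENNReal.ofReal (C2 * (N : ℝ) ^ 16) := by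
    rw [hX.lintegral_comp hTm]
    exact hM N o e hN1 hEP.n hEP.r
  have hI2 : ∫⁻ p, ENNReal.ofReal (T (X' p) o e ^ 8) ∂μ ≤ ENNReal.ofReal (C2 * (N : ℝ) ^ 16) := by
    rw [hX'.lintegral_comp hTm]
    exact hM N o e hN1 hEP.n hEP.r
  have hm1 : Measurable fun p => ENNReal.ofReal (T (X p) o e ^ 8) :=
    (hmX.pow_const 8).ennreal_ofReal
  have hm2 : Measurable fun p => ENNReal.ofReal (T (X' p) o e ^ 8) :=
    (hmX'.pow_const 8).ennreal_ofReal
  have hmj : ∀ j : ℕ, Measurable fun p => ENNReal.ofReal ((((j : ℝ) + 1) * 4 ^ b) ^ 4) *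
        ({p | (j : ℝ) * 4 ^ b ≤ Z p}.indicator (fun _ => (1 : ℝ≥0∞)) p) := fun j =>
    (measurable_const.indicator (hA j)).const_mul _
  have step1 : ∫⁻ p, ENNReal.ofReal (Z p ^ 4) ∂μ ≤
      ∑ j ∈ Finset.range (N ^ 4 + 1), ENNReal.ofReal ((((j : ℝ) + 1) * 4 ^ b) ^ 4) *
        μ {p | (j : ℝ) * 4 ^ b ≤ Z p} +
      (ENNReal.ofReal (128 / (N : ℝ) ^ 16) * ENNReal.ofReal (C2 * (N : ℝ) ^ 16) +
        ENNReal.ofReal (128 / (N : ℝ) ^ 16) * ENNReal.ofReal (C2 * (N : ℝ) ^ 16)) := by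
    refine (lintegral_mono hpt).trans ?_
    rw [lintegral_add_left (Finset.measurable_fun_sum _ fun j _ => hmj j),
      lintegral_finsetSum _ (fun j _ => hmj j),
      lintegral_add_left (hm1.const_mul _), lintegral_const_mul _ hm1, lintegral_const_mul _ hm2]
    refine add_le_add ?_ (add_le_add (by gcongr) (by gcongr))
    refine Finset.sum_le_sum fun j _ => ?_
    rw [lintegral_const_mul _ (measurable_const.indicator (hA j)), lintegral_indicator (hA j),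
      lintegral_const, one_mul, Measure.restrict_apply_univ]
  refine step1.trans ?_
  have hmain : ∑ j ∈ Finset.range (N ^ 4 + 1), ENNReal.ofReal ((((j : ℝ) + 1) * 4 ^ b) ^ 4) *
        μ {p | (j : ℝ) * 4 ^ b ≤ Z p} ≤ ENNReal.ofReal ((C * K1 + C * K2) * 256 ^ b) := by
    calc ∑ j ∈ Finset.range (N ^ 4 + 1), ENNReal.ofReal ((((j : ℝ) + 1) * 4 ^ b) ^ 4) *
          μ {p | (j : ℝ) * 4 ^ b ≤ Z p}
        ≤ ∑ j ∈ Finset.range (N ^ 4 + 1), ENNReal.ofReal ((((j : ℝ) + 1) * 4 ^ b) ^ 4 *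
          (C * Real.exp (-(c * (j : ℝ) ^ s)) + C * Real.exp (-(N : ℝ) ^ c))) := by
          refine Finset.sum_le_sum fun j _ => ?_
          rw [ENNReal.ofReal_mul (by positivity)]
          gcongr
          exact hD N o e b Q hN0 hEP hb1 hb2 hQ Ω μ X X' hX hX' hXX j (Nat.cast_nonneg j)
      _ = ENNReal.ofReal (∑ j ∈ Finset.range (N ^ 4 + 1), (((j : ℝ) + 1) * 4 ^ b) ^ 4 *
          (C * Real.exp (-(c * (j : ℝ) ^ s)) + C * Real.exp (-(N : ℝ) ^ c))) := by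
          rw [ENNReal.ofReal_sum_of_nonneg (fun j _ => by positivity)]
      _ ≤ ENNReal.ofReal ((C * K1 + C * K2) * 256 ^ b) := by
          apply ENNReal.ofReal_le_ofReal
          have e : ∑ j ∈ Finset.range (N ^ 4 + 1), (((j : ℝ) + 1) * 4 ^ b) ^ 4 *
              (C * Real.exp (-(c * (j : ℝ) ^ s)) + C * Real.exp (-(N : ℝ) ^ c)) =
              (C * ∑ j ∈ Finset.range (N ^ 4 + 1),
                ((j : ℝ) + 1) ^ 4 * Real.exp (-(c * (j : ℝ) ^ s)) +
              C * ∑ j ∈ Finset.range (N ^ 4 + 1),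
                ((j : ℝ) + 1) ^ 4 * Real.exp (-(N : ℝ) ^ c)) * 256 ^ b := by
            rw [Finset.mul_sum, Finset.mul_sum, ← Finset.sum_add_distrib, Finset.sum_mul]
            refine Finset.sum_congr rfl fun j _ => ?_
            rw [mul_pow, hB4]; ring
          rw [e]
          gcongr
          · exact hS1 _
          · exact hS2 N hN1
  have hlast : ENNReal.ofReal (128 / (N : ℝ) ^ 16) * ENNReal.ofReal (C2 * (N : ℝ) ^ 16) +
        ENNReal.ofReal (128 / (N : ℝ) ^ 16) * ENNReal.ofReal (C2 * (N : ℝ) ^ 16) =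
      ENNReal.ofReal (256 * C2) := by
    rw [← ENNReal.ofReal_mul (by positivity), ← ENNReal.ofReal_add (by positivity) (by positivity)]
    congr 1
    have hN16 : (0 : ℝ) < (N : ℝ) ^ 16 := by positivity
    field_simp; norm_num
  rw [hlast]
  refine (add_le_add hmain le_rfl).trans ?_
  rw [← ENNReal.ofReal_add (by positivity) (by positivity)]
  apply ENNReal.ofReal_le_ofReal
  have h256 : (1 : ℝ) ≤ 256 ^ b := one_le_pow₀ (by norm_num)
  nlinarith

end Pool.Agent.H20.ND
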