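import Pool.Agent.H76.ND.Targets2

/-!
# Part D of MP_57ddd5_pr: probability of crude regularity
-/

open MeasureTheory ProbabilityTheory
open scoped ENNReal

namespace Pool.Agent.H20.ND

open Pool.Agent.H99.NS Pool.Agent.H22.LPP Pool.Agent.H95.INS Pool.Agent.H76.ND

/-- Preimages under measure preserving maps are not larger, for all sets. -/
theorem mp_preimage_le {Ω Ω' : Type*} [MeasurableSpace Ω] [MeasurableSpace Ω'] {μ : Measure Ω}
    {ν : Measure Ω'} {f : Ω → Ω'} (hf : MeasurePreserving f μ ν) (S : Set Ω') :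
    μ (f ⁻¹' S) ≤ ν S := by
  calc μ (f ⁻¹' S) ≤ μ (f ⁻¹' toMeasurable ν S) :=
        measure_mono (Set.preimage_mono (subset_toMeasurable ν S))
    _ = ν (toMeasurable ν S) :=
        hf.measure_preimage (measurableSet_toMeasurable ν S).nullMeasurableSet
    _ = ν S := measure_toMeasurable S

theorem pf_PCR (h_CR : B_CR) : T_PCR := by
  intro q c0 hq0 hq1 hc0 _
  obtain ⟨C, c, hC, hc, h⟩ := h_CR q hq0 hq1 2 (c0 / 100) (by norm_num) (by positivity)
  refine ⟨C, c, hC, hc, fun o N hN => ?_⟩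
  have h1 := mp_preimage_le (mp_shiftE q o) {ω | ¬ CR q 2 (c0 / 100) N ω}
  refine le_trans h1 ?_
  rw [← ofReal_measureReal]
  exact ENNReal.ofReal_le_ofReal (h N hN)

end Pool.Agent.H20.ND
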