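import Pool.Agent.H20.ND.RRB

/-!
# Part D of MP_57ddd5_pr: probability of the global Fubini condition
-/

open MeasureTheory ProbabilityTheory
open scoped ENNReal

namespace Pool.Agent.H20.ND

open Pool.Agent.H99.NS Pool.Agent.H22.LPP Pool.Agent.H95.INS Pool.Agent.H76.ND

theorem pf_RFA (h_RRB : T_RRB) (h_PCR : T_PCR) (h_MAR : T_MAR) (_h_MEG : T_MEG)
    (h_DER : T_DER) (h_FIM : T_FIM) : T_RFA := by
  intro q c0 c p₀ hq0 hq1 hc0 hc01 hcq hH hp₀
  subst hcq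
  obtain ⟨N0, h1⟩ := h_RRB c.q c0 c hq0 hq1 hc0 hc01 rfl hH
  obtain ⟨C, c', hC, hc', h2⟩ := h_PCR c.q c0 hq0 hq1 hc0 hc01
  set p : ℝ := (min p₀ 1).toReal with hp
  have hmin1 : min p₀ 1 ≠ ∞ := ne_top_of_le_ne_top ENNReal.one_ne_top (min_le_right _ _)
  have hmin0 : min p₀ 1 ≠ 0 := (lt_min hp₀ one_pos).ne'
  have hp0 : 0 < p := ENNReal.toReal_pos hmin0 hmin1
  have hpe : ENNReal.ofReal p = min p₀ 1 := ENNReal.ofReal_toReal hmin1
  refine ⟨100 * C / p ^ 2, c', max 1 N0, by positivity, hc', ?_⟩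
  intro N o e z k hN hEP hk1 hk2 hz1 hz2 hpH
  have hN1 : 1 ≤ N := (le_max_left _ _).trans hN
  have hN0 : N0 ≤ N := (le_max_right _ _).trans hN
  set D : Dat := dk c (Xn c0 N) k with hD
  have hDq : D.q = c.q := rfl
  have hre : Reach (o - z) (e - z) := by
    have h := (reach_shift (u := o - z) (v := e - z) z)
    rw [sub_add_cancel, sub_add_cancel] at h
    exact h.1 hEP.r
  have hDn : 4 * D.n = lv k := by
    simp only [hD, dk, dat, lv]; ring
  have hdep : DepOn (dom (o - z) (e - z)) (fun ω => RR D ω (o - z) (e - z)) := by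
    refine h_DER D (o - z) (e - z) hre ?_ ?_
    · rw [hDn]; simp only [Prod.fst_sub]; omega
    · rw [hDn]; simp only [Prod.fst_sub]; omega
  have hdep' : DepOn (dom (o - z) (e - z)) (fun ω => ¬ RR D ω (o - z) (e - z)) := by
    intro ω ω' h
    have := hdep ω ω' h
    simp only at this ⊢
    rw [this]
  have hmeas : MeasurableSet {ω | ¬ RR D ω (o - z) (e - z)} :=
    h_FIM _ _ (dom_finite _ _) hdep'
  have hpH1 : pH D ≤ 1 := prob_le_one
  have hpH0 : 0 < pH D := lt_of_lt_of_le hp₀ hpH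
  have ha0 : pH D ^ 2 / 100 ≠ 0 := by
    rw [Ne, ENNReal.div_eq_zero_iff, not_or]
    exact ⟨pow_ne_zero _ hpH0.ne', by norm_num⟩
  have hat : pH D ^ 2 / 100 ≠ ∞ := by
    refine ENNReal.div_ne_top (ENNReal.pow_ne_top (ne_top_of_le_ne_top ENNReal.one_ne_top hpH1)) ?_
    norm_num
  have s1 : PE c.q {ω | ¬ RF D (shiftE z ω) (o - z) (e - z)} ≤
      PE c.q {ω | ¬ RF D ω (o - z) (e - z)} :=
    mp_preimage_le (mp_shiftE c.q z) {ω | ¬ RF D ω (o - z) (e - z)}
  have s2 : PE c.q {ω | ¬ RF D ω (o - z) (e - z)} ≤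
      PE c.q {ω | ¬ RR D ω (o - z) (e - z)} / (pH D ^ 2 / 100) :=
    h_MAR D (fun ω => ¬ RR D ω (o - z) (e - z)) (pH D ^ 2 / 100) hmeas ha0 hat
  have s3 : PE c.q {ω | ¬ RR D ω (o - z) (e - z)} ≤
      ENNReal.ofReal (C * Real.exp (-(N : ℝ) ^ c')) := by
    have e1 : PE c.q {ω | ¬ RR D ω (o - z) (e - z)} =
        PE c.q {ω | ¬ RR D (shiftE z ω) (o - z) (e - z)} :=
      ((mp_shiftE c.q z).measure_preimage hmeas.nullMeasurableSet).symm
    rw [e1]
    refine le_trans (measure_mono ?_) (h2 o N hN1)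
    intro ω hω hCr
    exact hω (h1 N o e z ω k hN0 hEP hCr hk1 hk2 hz1 hz2)
  refine (s1.trans s2).trans ?_
  have hple : ENNReal.ofReal p ≤ pH D := by
    rw [hpe]; exact (min_le_left _ _).trans hpH
  have hden : ENNReal.ofReal (p ^ 2 / 100) ≤ pH D ^ 2 / 100 := by
    rw [ENNReal.ofReal_div_of_pos (by norm_num), ENNReal.ofReal_pow hp0.le]
    have : ENNReal.ofReal (100 : ℝ) = 100 := by norm_num
    rw [this]
    gcongr
  calc PE c.q {ω | ¬ RR D ω (o - z) (e - z)} / (pH D ^ 2 / 100)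
      ≤ ENNReal.ofReal (C * Real.exp (-(N : ℝ) ^ c')) / ENNReal.ofReal (p ^ 2 / 100) := by
        gcongr
    _ = ENNReal.ofReal (C * Real.exp (-(N : ℝ) ^ c') / (p ^ 2 / 100)) := by
        exact (ENNReal.ofReal_div_of_pos (by positivity)).symm
    _ = ENNReal.ofReal (100 * C / p ^ 2 * Real.exp (-(N : ℝ) ^ c')) := by
        congr 1; field_simp

end Pool.Agent.H20.ND
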