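import Pool.Agent.H20.ND.PCR

/-!
# Part D of MP_57ddd5_pr: the global condition holds on crude regularity
-/

open MeasureTheory ProbabilityTheory
open scoped ENNReal

namespace Pool.Agent.H20.ND

open Pool.Agent.H99.NS Pool.Agent.H22.LPP Pool.Agent.H95.INS Pool.Agent.H76.ND

theorem near_shift {ω : Env} {z o e : Site} {c : ℝ} {g : ℤ → ℤ}
    (h : Near (shiftE z ω) (o - z) (e - z) c g) :
    Near ω o e c (fun r => g (r - z.1) + z.2) := by
  obtain ⟨h1, h2⟩ := h
  have h3 := conn_shift z h1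
  rw [sub_add_cancel, sub_add_cancel] at h3
  refine ⟨h3, ?_⟩
  rw [T_shift, wt_shift, sub_add_cancel, sub_add_cancel] at h2
  have e1 : (o - z).1 + z.1 = o.1 := by simp
  have e2 : (e - z).1 + z.1 = e.1 := by simp
  rw [e1, e2] at h2
  exact h2

/-- `N ^ p` is large. -/
theorem exists_rpow_ge (p R : ℝ) (hp : 0 < p) : ∃ N0 : ℕ, ∀ N : ℕ, N0 ≤ N → R ≤ (N : ℝ) ^ p := by
  have h := (tendsto_rpow_atTop hp).comp tendsto_natCast_atTop_atTop
  obtain ⟨N0, hN0⟩ := Filter.eventually_atTop.1 (h.eventually_ge_atTop R)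
  exact ⟨N0, fun N hN => hN0 N hN⟩

theorem lv_succ (k : ℕ) (hk : 1 ≤ k) : 2 * lv k = 64 ^ k := by
  obtain ⟨m, rfl⟩ : ∃ m, k = m + 1 := ⟨k - 1, by omega⟩
  simp only [lv, Nat.add_sub_cancel]
  ring

theorem pf_RRB (h_RGA : T_RGA) : T_RRB := by
  intro q c0 c hq0 hq1 hc0 hc01 hcq hH
  obtain ⟨N1, h1⟩ := h_RGA q c0 (14 * c.H / 1000) hq0 hq1 hc0 hc01 (by positivity)
  obtain ⟨N2, h2⟩ := exists_rpow_ge (c0 / 50) (2 * c.A) (by positivity)
  refine ⟨max 2 (max N1 N2), fun N o e z ω k hN hEP hC hk1 hk2 hz1 hz2 => ?_⟩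
  have hN2 : 2 ≤ N := (le_max_left _ _).trans hN
  have hNN1 : N1 ≤ N := ((le_max_left _ _).trans (le_max_right _ _)).trans hN
  have hNN2 : N2 ≤ N := ((le_max_right _ _).trans (le_max_right _ _)).trans hN
  have hk : 1 ≤ k := by
    by_contra h0
    have : k = 0 := by omega
    subst this
    rw [pow_zero] at hk1
    have h3 : (1 : ℝ) < (N : ℝ) ^ c0 := Real.one_lt_rpow (by exact_mod_cast hN2) hc0
    linarith
  have hX : 2 * c.A ≤ Xn c0 N := by
    unfold Xn
    rw [Int.le_floor]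
    push_cast
    exact h2 N hNN2
  intro g hg hr
  obtain ⟨r, hr1, hr2, hr3⟩ := hr
  have hD1 : 4 * (dk c (Xn c0 N) k).n = lv k := by
    simp only [dk, dat, lv]; ring
  rw [hD1] at hr1 hr2 ⊢
  have hf : 14 * (dk c (Xn c0 N) k).H * (dk c (Xn c0 N) k).f / 1000 =
      14 * c.H / 1000 * 4 ^ k := by
    simp only [dk, dat]; ring
  rw [hf] at hg
  have hA : (dk c (Xn c0 N) k).A * (dk c (Xn c0 N) k).w = c.A * 16 ^ k := rfl
  rw [hA] at hr3
  have hXX : (dk c (Xn c0 N) k).X = Xn c0 N * 16 ^ k := rfl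
  rw [hXX]
  have hR := h1 N o e ω k hNN1 hEP hC hk1 hk2 _ (near_shift hg)
  have h64 := lv_succ k hk
  have hlv : 0 ≤ lv k := by unfold lv; positivity
  have h16 : (0 : ℤ) < 16 ^ k := by positivity
  have key : ∀ t : ℤ, -lv k ≤ t → t ≤ lv k → |g t| ≤ Xn c0 N * 16 ^ k := by
    intro t ht1 ht2
    have := hR (r + z.1) (t + z.1) k le_rfl (by omega) (by omega) (by omega) (by omega) (by
      rw [show t + z.1 - (r + z.1) = t - r by ring, abs_le]
      constructor <;> nlinarith)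
    simp only [add_sub_cancel_right] at this
    rw [show g t + z.2 - (g r + z.2) = g t - g r by ring] at this
    have h5 : |g t| ≤ |g t - g r| + |g r| := by
      have := abs_add_le (g t - g r) (g r)
      rwa [sub_add_cancel] at this
    nlinarith
  exact ⟨key _ le_rfl (by omega), key _ (by omega) le_rfl⟩

end Pool.Agent.H20.ND
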