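import Pool.Agent.H76.ND.Targets

/-!
# Part D of MP_57ddd5_pr: merging of three time intervals
-/

namespace Pool.Agent.H20.ND

open Pool.Agent.H99.NS Pool.Agent.H22.LPP Pool.Agent.H95.INS Pool.Agent.H76.ND

theorem titu2 {x y a b : ℝ} (ha : 0 < a) (hb : 0 < b) :
    (x + y) ^ 2 / (a + b) ≤ x ^ 2 / a + y ^ 2 / b := by
  have h : x ^ 2 / a + y ^ 2 / b - (x + y) ^ 2 / (a + b) =
      (b * x - a * y) ^ 2 / (a * b * (a + b)) := by
    field_simp; ring
  have h2 : 0 ≤ (b * x - a * y) ^ 2 / (a * b * (a + b)) := by positivity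
  linarith

theorem titu3 {x y z a b c : ℝ} (ha : 0 < a) (hb : 0 < b) (hc : 0 < c) :
    (x + y + z) ^ 2 / (a + b + c) ≤ x ^ 2 / a + y ^ 2 / b + z ^ 2 / c := by
  have h1 := titu2 (x := x + y) (y := z) (a := a + b) (b := c) (by positivity) hc
  have h2 := titu2 (x := x) (y := y) ha hb
  linarith

theorem W_self (P : PS) (s : ℤ) (g : ℤ → ℤ) : P.W s s g = 0 := by
  have := P.add s s s g le_rfl le_rfl
  linarith

/-- A piece which is either of length zero or inside the interval of the path bound. -/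
theorem piece (P : PS) {q V dl La : ℝ} {lo hi : ℤ} (hV : 0 < V) (hLa : 0 ≤ La)
    (h : PB3 P q V dl La lo hi) {a b : ℤ} {g : ℤ → ℤ} (hab : a ≤ b)
    (hin : a = b ∨ (lo ≤ a ∧ b ≤ hi)) (hg : IsPath a b g) :
    ∃ S : ℝ, |((g b : ℝ) - g a)| ≤ S ∧
    P.W a b g ≤ mu q * ((b : ℝ) - a) - sg q / 2 * S ^ 2 / (((b : ℝ) - a) + dl) +
      La * (1 + (max |(g a : ℝ)| |(g b : ℝ)| + S) / V) := by
  rcases hin with rfl | ⟨h1, h2⟩
  · refine ⟨0, by simp, ?_⟩
    rw [W_self]
    have : 0 ≤ La * (1 + (max |(g a : ℝ)| |(g a : ℝ)| + 0) / V) := by positivity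
    simpa using this
  · obtain ⟨S, hS1, hS2⟩ := h a b g h1 hab h2 hg
    push_cast at hS1 hS2
    exact ⟨S, hS1, hS2⟩

theorem isPath_sub {s t a b : ℤ} {g : ℤ → ℤ} (h : IsPath s t g) (h1 : s ≤ a) (h2 : b ≤ t) :
    IsPath a b g := fun r hr1 hr2 => h r (h1.trans hr1) (lt_of_lt_of_le hr2 h2)

theorem pf_UM3 : T_UM3 := by
  intro P q V dl0 dl1 La0 La1 p p' hq0 hq1 hV hd0 hd1 hL0 hL1 hp hpp hA hB hC s t g hs hst ht hg
  set r1 : ℤ := max s (min t (-p)) with hr1
  set r2 : ℤ := max s (min t p) with hr2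
  have a1 : s ≤ r1 := le_max_left _ _
  have a2 : r1 ≤ r2 := by
    rw [hr1, hr2]
    exact max_le_max le_rfl (min_le_min le_rfl (by omega))
  have a3 : r2 ≤ t := max_le hst (min_le_left _ _)
  have p1 : s = r1 ∨ (-p' ≤ s ∧ r1 ≤ -p) := by
    rcases le_total (-p) s with h | h
    · left; rw [hr1]; exact (max_eq_left ((min_le_right _ _).trans h)).symm
    · right; exact ⟨hs, max_le h (min_le_right _ _)⟩
  have p2 : r1 = r2 ∨ (-p ≤ r1 ∧ r2 ≤ p) := by
    rcases le_total t (-p) with h | h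
    · left
      rw [hr1, hr2, min_eq_left h, min_eq_left (by omega)]
    · rcases le_total p s with h' | h'
      · left
        rw [hr1, hr2, max_eq_left ((min_le_right _ _).trans h'), max_eq_left]
        exact (min_le_right _ _).trans (by omega)
      · right
        refine ⟨?_, max_le h' (min_le_right _ _)⟩
        rw [hr1, min_eq_right h]; exact le_max_right _ _
  have p3 : r2 = t ∨ (p ≤ r2 ∧ t ≤ p') := by
    rcases le_total t p with h | h
    · left; rw [hr2, min_eq_left h, max_eq_right hst]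
    · right
      refine ⟨?_, ht⟩
      rw [hr2, min_eq_right h]; exact le_max_right _ _
  obtain ⟨S1, e1, f1⟩ := piece P hV hL1 hA a1 p1 (isPath_sub hg le_rfl (a2.trans a3))
  obtain ⟨S2, e2, f2⟩ := piece P hV hL0 hB a2 p2 (isPath_sub hg a1 a3)
  obtain ⟨S3, e3, f3⟩ := piece P hV hL1 hC a3 p3 (isPath_sub hg (a1.trans a2) le_rfl)
  have hS1 : 0 ≤ S1 := (abs_nonneg _).trans e1
  have hS2 : 0 ≤ S2 := (abs_nonneg _).trans e2
  have hS3 : 0 ≤ S3 := (abs_nonneg _).trans e3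
  refine ⟨S1 + S2 + S3, ?_, ?_⟩
  · push_cast
    have : ((g t : ℝ) - g s) = ((g r1 : ℝ) - g s) + ((g r2 : ℝ) - g r1) + ((g t : ℝ) - g r2) := by
      ring
    rw [this]
    refine (abs_add_le _ _).trans ?_
    have := abs_add_le ((g r1 : ℝ) - g s) ((g r2 : ℝ) - g r1)
    linarith
  · have c1 : (0 : ℝ) ≤ (r1 : ℝ) - s := by
      have : (s : ℝ) ≤ r1 := by exact_mod_cast a1
      linarith
    have c2 : (0 : ℝ) ≤ (r2 : ℝ) - r1 := by
      have : (r1 : ℝ) ≤ r2 := by exact_mod_cast a2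
      linarith
    have c3 : (0 : ℝ) ≤ (t : ℝ) - r2 := by
      have : (r2 : ℝ) ≤ t := by exact_mod_cast a3
      linarith
    have hT := titu3 (x := S1) (y := S2) (z := S3) (a := ((r1 : ℝ) - s) + dl1)
      (b := ((r2 : ℝ) - r1) + dl0) (c := ((t : ℝ) - r2) + dl1) (by linarith) (by linarith)
      (by linarith)
    have hsum : ((r1 : ℝ) - s) + dl1 + (((r2 : ℝ) - r1) + dl0) + (((t : ℝ) - r2) + dl1) =
        ((t : ℝ) - s) + (dl0 + 2 * dl1) := by ring
    rw [hsum] at hT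
    have hsg := sg_nonneg hq1
    have hTT : sg q / 2 * (S1 + S2 + S3) ^ 2 / (((t : ℝ) - s) + (dl0 + 2 * dl1)) ≤
        sg q / 2 * S1 ^ 2 / (((r1 : ℝ) - s) + dl1) + sg q / 2 * S2 ^ 2 / (((r2 : ℝ) - r1) + dl0) +
        sg q / 2 * S3 ^ 2 / (((t : ℝ) - r2) + dl1) := by
      have := mul_le_mul_of_nonneg_left hT (by positivity : (0 : ℝ) ≤ sg q / 2)
      calc sg q / 2 * (S1 + S2 + S3) ^ 2 / (((t : ℝ) - s) + (dl0 + 2 * dl1)) =
          sg q / 2 * ((S1 + S2 + S3) ^ 2 / (((t : ℝ) - s) + (dl0 + 2 * dl1))) := by ring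
        _ ≤ _ := this
        _ = _ := by ring
    -- positions
    set M : ℝ := max |(g s : ℝ)| |(g t : ℝ)| with hM
    have m1 : |(g s : ℝ)| ≤ M := le_max_left _ _
    have m2 : |(g t : ℝ)| ≤ M := le_max_right _ _
    have g1s : |(g r1 : ℝ)| ≤ M + S1 := by
      have : (g r1 : ℝ) = g s + (g r1 - g s) := by ring
      rw [this]; refine (abs_add_le _ _).trans ?_; linarith
    have g2t : |(g r2 : ℝ)| ≤ M + S3 := by
      have : (g r2 : ℝ) = g t + -(g t - g r2) := by ring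
      rw [this]; refine (abs_add_le _ _).trans ?_; rw [abs_neg]; linarith
    have g1t : |(g r1 : ℝ)| ≤ M + S3 + S2 := by
      have : (g r1 : ℝ) = g r2 + -(g r2 - g r1) := by ring
      rw [this]; refine (abs_add_le _ _).trans ?_; rw [abs_neg]; linarith
    have g2s : |(g r2 : ℝ)| ≤ M + S1 + S2 := by
      have : (g r2 : ℝ) = g r1 + (g r2 - g r1) := by ring
      rw [this]; refine (abs_add_le _ _).trans ?_; linarith
    have n1 : max |(g s : ℝ)| |(g r1 : ℝ)| + S1 ≤ M + (S1 + S2 + S3) := by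
      have : max |(g s : ℝ)| |(g r1 : ℝ)| ≤ M + S2 + S3 := max_le (by linarith) (by linarith)
      linarith
    have n2 : max |(g r1 : ℝ)| |(g r2 : ℝ)| + S2 ≤ M + (S1 + S2 + S3) := by
      have : max |(g r1 : ℝ)| |(g r2 : ℝ)| ≤ M + S1 + S3 := max_le (by linarith) (by linarith)
      linarith
    have n3 : max |(g r2 : ℝ)| |(g t : ℝ)| + S3 ≤ M + (S1 + S2 + S3) := by
      have : max |(g r2 : ℝ)| |(g t : ℝ)| ≤ M + S1 + S2 := max_le (by linarith) (by linarith)
      linarith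
    have q1 : La1 * (1 + (max |(g s : ℝ)| |(g r1 : ℝ)| + S1) / V) ≤
        La1 * (1 + (M + (S1 + S2 + S3)) / V) := by gcongr
    have q2 : La0 * (1 + (max |(g r1 : ℝ)| |(g r2 : ℝ)| + S2) / V) ≤
        La0 * (1 + (M + (S1 + S2 + S3)) / V) := by gcongr
    have q3 : La1 * (1 + (max |(g r2 : ℝ)| |(g t : ℝ)| + S3) / V) ≤
        La1 * (1 + (M + (S1 + S2 + S3)) / V) := by gcongr
    have hW : P.W s t g = P.W s r1 g + P.W r1 r2 g + P.W r2 t g := by
      rw [P.add s r1 t g a1 (a2.trans a3), P.add r1 r2 t g a2 a3]; ring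
    rw [hW]
    push_cast
    have hmu : mu q * ((t : ℝ) - s) = mu q * ((r1 : ℝ) - s) + mu q * ((r2 : ℝ) - r1) +
        mu q * ((t : ℝ) - r2) := by ring
    have hal : (La0 + 2 * La1) * (1 + (M + (S1 + S2 + S3)) / V) =
        La1 * (1 + (M + (S1 + S2 + S3)) / V) + La0 * (1 + (M + (S1 + S2 + S3)) / V) +
        La1 * (1 + (M + (S1 + S2 + S3)) / V) := by ring
    rw [hmu, hal]
    linarith

end Pool.Agent.H20.ND
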